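import Pool.Agent.Helper10.RS.Goals2

/-!
# Project RS, packet AUTP

`PSL_2(p)` has index at most `2` in every group in which it is normal and self-centralizing.
No Sylow theory: two non-commuting elements of order `p` of `PSL_2(p)` are simultaneously conjugate to
`[1, s; 0, 1]`, `[1, 0; s', 1]`.
-/

set_option autoImplicit false

open Matrix

namespace Pool.Agent.Helper98.RS

open Pool.Agent.Helper10.RS

universe u

variable {p : ℕ}

/-- `SL_2(p)` -/
abbrev SL (p : ℕ) : Type := Matrix.SpecialLinearGroup (Fin 2) (ZMod p)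

/-- upper unipotent matrix -/
def um (x : ZMod p) : SL p := ⟨!![1, x; 0, 1], by simp [Matrix.det_fin_two]⟩

/-- lower unipotent matrix -/
def vm (x : ZMod p) : SL p := ⟨!![1, 0; x, 1], by simp [Matrix.det_fin_two]⟩

/-- the projection -/
def pr : SL p →* PSL2 p := QuotientGroup.mk' _

theorem pr_surj (x : PSL2 p) : ∃ g : SL p, pr g = x := QuotientGroup.mk_surjective x

theorem pr_eq_one {g : SL p} (h : pr g = 1) : ∃ r : ZMod p, r ^ 2 = 1 ∧ scalar (Fin 2) r = (g : Matrix _ _ _) := by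
  have h1 : g ∈ Subgroup.center (SL p) := (QuotientGroup.eq_one_iff g).1 h
  have h2 := Matrix.SpecialLinearGroup.mem_center_iff.1 h1
  simpa using h2

theorem pr_eq_one' {g : SL p} (r : ZMod p) (hr : r ^ 2 = 1)
    (h : scalar (Fin 2) r = (g : Matrix _ _ _)) : pr g = 1 := by
  apply (QuotientGroup.eq_one_iff g).2
  apply Matrix.SpecialLinearGroup.mem_center_iff.2
  exact ⟨r, by simpa using hr, h⟩

theorem pr_entry {g : SL p} (h : pr g = 1) : (g : Matrix (Fin 2) (Fin 2) (ZMod p)) 0 1 = 0 := by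
  obtain ⟨r, -, h⟩ := pr_eq_one h
  rw [← h]; simp

@[simp] theorem um00 (x : ZMod p) : (um x : Matrix (Fin 2) (Fin 2) (ZMod p)) 0 0 = 1 := rfl
@[simp] theorem um01 (x : ZMod p) : (um x : Matrix (Fin 2) (Fin 2) (ZMod p)) 0 1 = x := rfl
@[simp] theorem um10 (x : ZMod p) : (um x : Matrix (Fin 2) (Fin 2) (ZMod p)) 1 0 = 0 := rfl
@[simp] theorem um11 (x : ZMod p) : (um x : Matrix (Fin 2) (Fin 2) (ZMod p)) 1 1 = 1 := rfl
@[simp] theorem vm00 (x : ZMod p) : (vm x : Matrix (Fin 2) (Fin 2) (ZMod p)) 0 0 = 1 := rfl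
@[simp] theorem vm01 (x : ZMod p) : (vm x : Matrix (Fin 2) (Fin 2) (ZMod p)) 0 1 = 0 := rfl
@[simp] theorem vm10 (x : ZMod p) : (vm x : Matrix (Fin 2) (Fin 2) (ZMod p)) 1 0 = x := rfl
@[simp] theorem vm11 (x : ZMod p) : (vm x : Matrix (Fin 2) (Fin 2) (ZMod p)) 1 1 = 1 := rfl

theorem sl_ext {g h : SL p}
    (h00 : (g : Matrix (Fin 2) (Fin 2) (ZMod p)) 0 0 = (h : Matrix (Fin 2) (Fin 2) (ZMod p)) 0 0)
    (h01 : (g : Matrix (Fin 2) (Fin 2) (ZMod p)) 0 1 = (h : Matrix (Fin 2) (Fin 2) (ZMod p)) 0 1)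
    (h10 : (g : Matrix (Fin 2) (Fin 2) (ZMod p)) 1 0 = (h : Matrix (Fin 2) (Fin 2) (ZMod p)) 1 0)
    (h11 : (g : Matrix (Fin 2) (Fin 2) (ZMod p)) 1 1 = (h : Matrix (Fin 2) (Fin 2) (ZMod p)) 1 1) :
    g = h := by
  apply Matrix.SpecialLinearGroup.ext
  intro i j
  fin_cases i <;> fin_cases j <;> assumption

theorem mul_entry (g h : SL p) (i j : Fin 2) :
    ((g * h : SL p) : Matrix (Fin 2) (Fin 2) (ZMod p)) i j =
      (g : Matrix (Fin 2) (Fin 2) (ZMod p)) i 0 * (h : Matrix (Fin 2) (Fin 2) (ZMod p)) 0 j +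
      (g : Matrix (Fin 2) (Fin 2) (ZMod p)) i 1 * (h : Matrix (Fin 2) (Fin 2) (ZMod p)) 1 j := by
  rw [Matrix.SpecialLinearGroup.coe_mul, Matrix.mul_apply, Fin.sum_univ_two]

theorem um_mul (x y : ZMod p) : um x * um y = um (x + y) := by
  apply sl_ext <;> simp [mul_entry, add_comm]

theorem vm_mul (x y : ZMod p) : vm x * vm y = vm (x + y) := by
  apply sl_ext <;> simp [mul_entry]

theorem um_zero : (um 0 : SL p) = 1 := by
  apply sl_ext <;> simp

theorem vm_zero : (vm 0 : SL p) = 1 := by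
  apply sl_ext <;> simp

theorem um_pow (x : ZMod p) (k : ℕ) : um x ^ k = um ((k : ZMod p) * x) := by
  induction k with
  | zero => simp [um_zero]
  | succ n ih => rw [pow_succ, ih, um_mul]; congr 1; push_cast; ring

theorem vm_pow (x : ZMod p) (k : ℕ) : vm x ^ k = vm ((k : ZMod p) * x) := by
  induction k with
  | zero => simp [vm_zero]
  | succ n ih => rw [pow_succ, ih, vm_mul]; congr 1; push_cast; ring

theorem vm_inv (x : ZMod p) : (vm x)⁻¹ = vm (-x) := by
  rw [inv_eq_iff_mul_eq_one, vm_mul, add_neg_cancel, vm_zero]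

theorem sl_det (g : SL p) : (g : Matrix (Fin 2) (Fin 2) (ZMod p)) 0 0 * (g : Matrix (Fin 2) (Fin 2) (ZMod p)) 1 1 -
    (g : Matrix (Fin 2) (Fin 2) (ZMod p)) 0 1 * (g : Matrix (Fin 2) (Fin 2) (ZMod p)) 1 0 = 1 := by
  have h := g.2
  rw [Matrix.det_fin_two] at h
  exact h

variable [Fact p.Prime]

theorem decomp1 (g : SL p) (h : (g : Matrix (Fin 2) (Fin 2) (ZMod p)) 1 0 ≠ 0) :
    ∃ b c d : ZMod p, g = um b * vm c * um d := by
  have hd := sl_det g
  set A := (g : Matrix (Fin 2) (Fin 2) (ZMod p)) 0 0 with hA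
  set B := (g : Matrix (Fin 2) (Fin 2) (ZMod p)) 0 1 with hB
  set C := (g : Matrix (Fin 2) (Fin 2) (ZMod p)) 1 0 with hC
  set D := (g : Matrix (Fin 2) (Fin 2) (ZMod p)) 1 1 with hD
  refine ⟨(A - 1) / C, C, (D - 1) / C, ?_⟩
  apply sl_ext
  · simp [mul_entry]
    rw [← hA]; field_simp; ring
  · simp [mul_entry]
    rw [← hB]; field_simp
    linear_combination -hd
  · simp [mul_entry]
    rw [← hC]
  · simp [mul_entry]
    rw [← hD]; field_simp; ring

theorem decomp (g : SL p) : ∃ a b c d : ZMod p, g = vm a * um b * vm c * um d := by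
  by_cases h : (g : Matrix (Fin 2) (Fin 2) (ZMod p)) 1 0 = 0
  · have h1 : ((vm 1 * g : SL p) : Matrix (Fin 2) (Fin 2) (ZMod p)) 1 0 ≠ 0 := by
      intro h2
      rw [mul_entry] at h2
      simp [h] at h2
      have hd := sl_det g
      rw [h2, h] at hd
      simp at hd
    obtain ⟨b, c, d, e⟩ := decomp1 _ h1
    refine ⟨-1, b, c, d, ?_⟩
    have h3 : g = vm (-1) * (vm 1 * g) := by
      rw [← mul_assoc, vm_mul, neg_add_cancel, vm_zero, one_mul]
    rw [h3, e]
    simp only [mul_assoc]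
  · obtain ⟨b, c, d, e⟩ := decomp1 _ h
    exact ⟨0, b, c, d, by rw [vm_zero, one_mul]; exact e⟩

theorem hom_ext {G : Type u} [Group G] (f g : PSL2 p →* G)
    (hu : ∀ x, f (pr (um x)) = g (pr (um x))) (hv : ∀ x, f (pr (vm x)) = g (pr (vm x))) : f = g := by
  apply MonoidHom.ext
  intro x
  obtain ⟨s, rfl⟩ := pr_surj x
  obtain ⟨a, b, c, d, rfl⟩ := decomp s
  simp only [map_mul, hu, hv]

/-- elements of order `p` have a representative with a fixed vector -/
theorem fixvec (hp : p ≠ 2) (x : PSL2 p) (hx : x ^ p = 1) : ∃ (g : SL p) (a b : ZMod p), pr g = x ∧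
    (a ≠ 0 ∨ b ≠ 0) ∧
    (g : Matrix (Fin 2) (Fin 2) (ZMod p)) 0 0 * a + (g : Matrix (Fin 2) (Fin 2) (ZMod p)) 0 1 * b = a ∧
    (g : Matrix (Fin 2) (Fin 2) (ZMod p)) 1 0 * a + (g : Matrix (Fin 2) (Fin 2) (ZMod p)) 1 1 * b = b := by
  obtain ⟨g0, rfl⟩ := pr_surj x
  have hpp : p.Prime := Fact.out
  obtain ⟨k, hk⟩ : ∃ k, p = 2 * k + 1 := by
    obtain ⟨k, hk⟩ := hpp.odd_of_ne_two hp
    exact ⟨k, hk⟩
  rw [← map_pow] at hx
  obtain ⟨r, hr, hr2⟩ := pr_eq_one hx
  have h1 : ((g0 ^ (p + 1) : SL p) : Matrix (Fin 2) (Fin 2) (ZMod p)) ^ p = 1 := by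
    have h0 : r ^ (p + 1) = 1 := by
      have h00 : p + 1 = 2 * (k + 1) := by omega
      rw [h00, pow_mul, hr, one_pow]
    rw [Matrix.SpecialLinearGroup.coe_pow, ← pow_mul, mul_comm, pow_mul,
      ← Matrix.SpecialLinearGroup.coe_pow, ← hr2, ← map_pow, h0, map_one]
  have h2 : pr (g0 ^ (p + 1)) = pr g0 := by
    rw [map_pow, pow_succ, ← map_pow, hx, one_mul]
  set g : SL p := g0 ^ (p + 1) with hg
  have h3 : ((g : Matrix (Fin 2) (Fin 2) (ZMod p)) - 1) ^ p = 0 := by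
    rw [sub_pow_char_of_commute p (Commute.one_right _), h1, one_pow, sub_self]
  have h4 : ((g : Matrix (Fin 2) (Fin 2) (ZMod p)) - 1).det = 0 := by
    have h5 := congrArg Matrix.det h3
    rw [Matrix.det_pow] at h5
    have h6 : (0 : Matrix (Fin 2) (Fin 2) (ZMod p)).det = 0 := by simp
    rw [h6] at h5
    exact pow_eq_zero_iff (hpp.ne_zero) |>.1 h5
  obtain ⟨v, hv, hv2⟩ := Matrix.exists_mulVec_eq_zero_iff.2 h4
  refine ⟨g, v 0, v 1, h2, ?_, ?_, ?_⟩
  · by_contra hcon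
    push Not at hcon
    apply hv
    ext i
    fin_cases i
    · exact hcon.1
    · exact hcon.2
  · have h5 := congrFun hv2 0
    rw [Matrix.sub_mulVec, Matrix.one_mulVec, Pi.sub_apply, Matrix.mulVec, dotProduct,
      Fin.sum_univ_two] at h5
    simp only [Pi.zero_apply] at h5
    linear_combination h5
  · have h5 := congrFun hv2 1
    rw [Matrix.sub_mulVec, Matrix.one_mulVec, Pi.sub_apply, Matrix.mulVec, dotProduct,
      Fin.sum_univ_two] at h5
    simp only [Pi.zero_apply] at h5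
    linear_combination h5

/-- a matrix which fixes the first column of `M` is conjugate by `M` to an upper unipotent matrix -/
theorem conj_um (g M : SL p)
    (h0 : (g : Matrix (Fin 2) (Fin 2) (ZMod p)) 0 0 * (M : Matrix (Fin 2) (Fin 2) (ZMod p)) 0 0 +
      (g : Matrix (Fin 2) (Fin 2) (ZMod p)) 0 1 * (M : Matrix (Fin 2) (Fin 2) (ZMod p)) 1 0 =
      (M : Matrix (Fin 2) (Fin 2) (ZMod p)) 0 0)
    (h1 : (g : Matrix (Fin 2) (Fin 2) (ZMod p)) 1 0 * (M : Matrix (Fin 2) (Fin 2) (ZMod p)) 0 0 +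
      (g : Matrix (Fin 2) (Fin 2) (ZMod p)) 1 1 * (M : Matrix (Fin 2) (Fin 2) (ZMod p)) 1 0 =
      (M : Matrix (Fin 2) (Fin 2) (ZMod p)) 1 0) :
    ∃ s, M⁻¹ * g * M = um s := by
  rw [← mul_entry] at h0 h1
  have e1 : (M⁻¹ * M : SL p) = 1 := inv_mul_cancel M
  have x00 : ((M⁻¹ * (g * M) : SL p) : Matrix (Fin 2) (Fin 2) (ZMod p)) 0 0 = 1 := by
    rw [mul_entry, h0, h1, ← mul_entry, e1]; simp
  have x10 : ((M⁻¹ * (g * M) : SL p) : Matrix (Fin 2) (Fin 2) (ZMod p)) 1 0 = 0 := by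
    rw [mul_entry, h0, h1, ← mul_entry, e1]; simp
  have hd := sl_det (M⁻¹ * (g * M))
  rw [x00, x10, one_mul, mul_zero, sub_zero] at hd
  refine ⟨((M⁻¹ * (g * M) : SL p) : Matrix (Fin 2) (Fin 2) (ZMod p)) 0 1, ?_⟩
  rw [mul_assoc]
  apply sl_ext
  · rw [x00]; rfl
  · rfl
  · rw [x10]; rfl
  · rw [hd]; rfl

/-- a matrix which fixes the second column of `M` is conjugate by `M` to a lower unipotent matrix -/
theorem conj_vm (g M : SL p)
    (h0 : (g : Matrix (Fin 2) (Fin 2) (ZMod p)) 0 0 * (M : Matrix (Fin 2) (Fin 2) (ZMod p)) 0 1 +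
      (g : Matrix (Fin 2) (Fin 2) (ZMod p)) 0 1 * (M : Matrix (Fin 2) (Fin 2) (ZMod p)) 1 1 =
      (M : Matrix (Fin 2) (Fin 2) (ZMod p)) 0 1)
    (h1 : (g : Matrix (Fin 2) (Fin 2) (ZMod p)) 1 0 * (M : Matrix (Fin 2) (Fin 2) (ZMod p)) 0 1 +
      (g : Matrix (Fin 2) (Fin 2) (ZMod p)) 1 1 * (M : Matrix (Fin 2) (Fin 2) (ZMod p)) 1 1 =
      (M : Matrix (Fin 2) (Fin 2) (ZMod p)) 1 1) :
    ∃ s, M⁻¹ * g * M = vm s := by
  rw [← mul_entry] at h0 h1
  have e1 : (M⁻¹ * M : SL p) = 1 := inv_mul_cancel M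
  have x01 : ((M⁻¹ * (g * M) : SL p) : Matrix (Fin 2) (Fin 2) (ZMod p)) 0 1 = 0 := by
    rw [mul_entry, h0, h1, ← mul_entry, e1]; simp
  have x11 : ((M⁻¹ * (g * M) : SL p) : Matrix (Fin 2) (Fin 2) (ZMod p)) 1 1 = 1 := by
    rw [mul_entry, h0, h1, ← mul_entry, e1]; simp
  have hd := sl_det (M⁻¹ * (g * M))
  rw [x01, x11, mul_one, zero_mul, sub_zero] at hd
  refine ⟨((M⁻¹ * (g * M) : SL p) : Matrix (Fin 2) (Fin 2) (ZMod p)) 1 0, ?_⟩
  rw [mul_assoc]
  apply sl_ext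
  · rw [hd]; rfl
  · rw [x01]; rfl
  · rfl
  · rw [x11]; rfl

/-- a matrix with a given first column -/
theorem exists_col (a b : ZMod p) (h : a ≠ 0 ∨ b ≠ 0) : ∃ M : SL p,
    (M : Matrix (Fin 2) (Fin 2) (ZMod p)) 0 0 = a ∧
    (M : Matrix (Fin 2) (Fin 2) (ZMod p)) 1 0 = b := by
  rcases h with h | h
  · exact ⟨⟨!![a, 0; b, a⁻¹], by simp [Matrix.det_fin_two, h]⟩, rfl, rfl⟩
  · exact ⟨⟨!![a, -b⁻¹; b, 0], by simp [Matrix.det_fin_two, h]⟩, rfl, rfl⟩

/-- simultaneous conjugation to the standard unipotent subgroups -/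
theorem normalize (hp : p ≠ 2) (x y : PSL2 p) (hx : x ^ p = 1) (hy : y ^ p = 1)
    (hxy : x * y ≠ y * x) : ∃ (t : PSL2 p) (s s' : ZMod p),
    t * x * t⁻¹ = pr (um s) ∧ t * y * t⁻¹ = pr (vm s') := by
  obtain ⟨g, a, b, hg, hab, g1, g2⟩ := fixvec hp x hx
  obtain ⟨h, c, d, hh, hcd, h1, h2⟩ := fixvec hp y hy
  by_cases hD : a * d - b * c = 0
  · exfalso
    apply hxy
    rw [← hg, ← hh, ← map_mul, ← map_mul]
    congr 1
    -- `h` fixes `(a, b)` too
    have h1' : (h : Matrix (Fin 2) (Fin 2) (ZMod p)) 0 0 * a +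
        (h : Matrix (Fin 2) (Fin 2) (ZMod p)) 0 1 * b = a := by
      rcases hcd with hc | hd
      · apply mul_left_cancel₀ hc
        linear_combination a * h1 - (h : Matrix (Fin 2) (Fin 2) (ZMod p)) 0 1 * hD
      · apply mul_left_cancel₀ hd
        linear_combination b * h1 + ((h : Matrix (Fin 2) (Fin 2) (ZMod p)) 0 0 - 1) * hD
    have h2' : (h : Matrix (Fin 2) (Fin 2) (ZMod p)) 1 0 * a +
        (h : Matrix (Fin 2) (Fin 2) (ZMod p)) 1 1 * b = b := by
      rcases hcd with hc | hd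
      · apply mul_left_cancel₀ hc
        linear_combination a * h2 - ((h : Matrix (Fin 2) (Fin 2) (ZMod p)) 1 1 - 1) * hD
      · apply mul_left_cancel₀ hd
        linear_combination b * h2 + (h : Matrix (Fin 2) (Fin 2) (ZMod p)) 1 0 * hD
    obtain ⟨M, ha, hb⟩ := exists_col a b hab
    rw [← ha, ← hb] at g1 g2 h1' h2'
    obtain ⟨s, hs⟩ := conj_um g M g1 g2
    obtain ⟨s', hs'⟩ := conj_um h M h1' h2'
    have e1 : g = M * um s * M⁻¹ := by rw [← hs]; group
    have e2 : h = M * um s' * M⁻¹ := by rw [← hs']; group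
    have e3 : um s * um s' = um s' * um s := by rw [um_mul, um_mul, add_comm]
    rw [e1, e2]
    calc M * um s * M⁻¹ * (M * um s' * M⁻¹) = M * (um s * um s') * M⁻¹ := by group
      _ = M * (um s' * um s) * M⁻¹ := by rw [e3]
      _ = M * um s' * M⁻¹ * (M * um s * M⁻¹) := by group
  · obtain ⟨M, ha, hb, hc, hd⟩ : ∃ M : SL p,
        (M : Matrix (Fin 2) (Fin 2) (ZMod p)) 0 0 = a ∧
        (M : Matrix (Fin 2) (Fin 2) (ZMod p)) 1 0 = b ∧
        (M : Matrix (Fin 2) (Fin 2) (ZMod p)) 0 1 = c / (a * d - b * c) ∧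
        (M : Matrix (Fin 2) (Fin 2) (ZMod p)) 1 1 = d / (a * d - b * c) := by
      refine ⟨⟨!![a, c / (a * d - b * c); b, d / (a * d - b * c)], ?_⟩, rfl, rfl, rfl, rfl⟩
      simp only [Matrix.det_fin_two, Matrix.of_apply, Matrix.cons_val', Matrix.cons_val_zero,
        Matrix.cons_val_one, Matrix.cons_val_fin_one]
      field_simp
    have h1' : (h : Matrix (Fin 2) (Fin 2) (ZMod p)) 0 0 * (c / (a * d - b * c)) +
        (h : Matrix (Fin 2) (Fin 2) (ZMod p)) 0 1 * (d / (a * d - b * c)) =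
        c / (a * d - b * c) := by
      linear_combination (1 / (a * d - b * c)) * h1
    have h2' : (h : Matrix (Fin 2) (Fin 2) (ZMod p)) 1 0 * (c / (a * d - b * c)) +
        (h : Matrix (Fin 2) (Fin 2) (ZMod p)) 1 1 * (d / (a * d - b * c)) =
        d / (a * d - b * c) := by
      linear_combination (1 / (a * d - b * c)) * h2
    rw [← ha, ← hb] at g1 g2
    rw [← hc, ← hd] at h1' h2'
    obtain ⟨s, hs⟩ := conj_um g M g1 g2
    obtain ⟨s', hs'⟩ := conj_vm h M h1' h2'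
    refine ⟨(pr M)⁻¹, s, s', ?_, ?_⟩
    · rw [← hs, ← hg, inv_inv, ← map_inv, ← map_mul, ← map_mul]
    · rw [← hs', ← hh, inv_inv, ← map_inv, ← map_mul, ← map_mul]

theorem ncomm : pr (um (1 : ZMod p)) * pr (vm 1) ≠ pr (vm 1) * pr (um 1) := by
  intro h
  rw [← map_mul, ← map_mul, ← inv_mul_eq_one, ← map_inv, ← map_mul] at h
  have h1 := pr_entry h
  rw [mul_entry, Matrix.SpecialLinearGroup.SL2_inv_expl] at h1
  simp [mul_entry] at h1

theorem um_ne {x : ZMod p} (h : pr (um x) = 1) : x = 0 := pr_entry h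

/-- the involution -/
theorem rel (x y : ZMod p) (h : (pr (um x) * (pr (vm y) ^ 2)⁻¹) ^ 2 = 1) :
    x * (2 - 2 * (x * y)) = 0 := by
  rw [← map_pow, ← map_inv, ← map_mul, ← map_pow, vm_pow, vm_inv] at h
  have h1 := pr_entry h
  rw [pow_two, mul_entry] at h1
  simp [mul_entry] at h1
  linear_combination h1

theorem rel1 : (pr (um (1 : ZMod p)) * (pr (vm 1) ^ 2)⁻¹) ^ 2 = 1 := by
  rw [← map_pow, ← map_inv, ← map_mul, ← map_pow, vm_pow, vm_inv]
  apply pr_eq_one' (-1) (by ring)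
  rw [pow_two]
  ext i j
  fin_cases i <;> fin_cases j <;> simp [mul_entry] <;> ring

/-- parameter of an automorphism -/
theorem param (hp : p ≠ 2) (α : MulAut (PSL2 p)) : ∃ (t : PSL2 p) (s : ZMod p), s ≠ 0 ∧
    (∀ x, (MulAut.conj t * α) (pr (um x)) = pr (um (s * x))) ∧
    (∀ x, (MulAut.conj t * α) (pr (vm x)) = pr (vm (s⁻¹ * x))) := by
  have hu : (pr (um (1 : ZMod p))) ^ p = 1 := by
    rw [← map_pow, um_pow]; simp [um_zero]
  have hv : (pr (vm (1 : ZMod p))) ^ p = 1 := by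
    rw [← map_pow, vm_pow]; simp [vm_zero]
  obtain ⟨t, s, s', h1, h2⟩ := normalize hp (α (pr (um 1))) (α (pr (vm 1)))
    (by rw [← map_pow, hu, map_one]) (by rw [← map_pow, hv, map_one])
    (by
      intro h
      apply ncomm (p := p)
      apply α.injective
      rw [map_mul α, map_mul α]
      exact h)
  have h1' : (MulAut.conj t * α) (pr (um 1)) = pr (um s) := h1
  have h2' : (MulAut.conj t * α) (pr (vm 1)) = pr (vm s') := h2
  set β := MulAut.conj t * α with hβ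
  have hs : s ≠ 0 := by
    intro h0
    rw [h0, um_zero, map_one] at h1'
    have h3 : pr (um (1 : ZMod p)) = 1 := by
      apply β.injective
      rw [h1', map_one]
    exact one_ne_zero (um_ne h3)
  have hss : s * s' = 1 := by
    have h3 : (pr (um s) * (pr (vm s') ^ 2)⁻¹) ^ 2 = 1 := by
      rw [← h1', ← h2', ← map_pow, ← map_inv, ← map_mul, ← map_pow, rel1, map_one]
    have h4 := rel _ _ h3
    rcases mul_eq_zero.1 h4 with h5 | h5
    · exact absurd h5 hs
    · have h2 : (2 : ZMod p) ≠ 0 := by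
        intro h6
        have h7 : ((2 : ℕ) : ZMod p) = 0 := by exact_mod_cast h6
        rw [ZMod.natCast_eq_zero_iff] at h7
        have hpp : p.Prime := Fact.out
        exact hp ((Nat.prime_dvd_prime_iff_eq hpp Nat.prime_two).1 h7)
      apply mul_left_cancel₀ h2
      linear_combination -h5
  have hs' : s' = s⁻¹ := eq_inv_of_mul_eq_one_right hss
  refine ⟨t, s, hs, ?_, ?_⟩
  · intro x
    have h3 : um x = um (1 : ZMod p) ^ x.val := by
      rw [um_pow, mul_one, ZMod.natCast_zmod_val]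
    rw [h3, map_pow, map_pow, h1', ← map_pow, um_pow, ZMod.natCast_zmod_val, mul_comm]
  · intro x
    have h3 : vm x = vm (1 : ZMod p) ^ x.val := by
      rw [vm_pow, mul_one, ZMod.natCast_zmod_val]
    rw [h3, map_pow, map_pow, h2', ← map_pow, vm_pow, ZMod.natCast_zmod_val, mul_comm, hs']

/-- an automorphism with a square parameter is inner -/
theorem inner_of_sq (γ : MulAut (PSL2 p)) (d : ZMod p) (hd : d ≠ 0)
    (hu : ∀ x, γ (pr (um x)) = pr (um (d * d * x)))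
    (hv : ∀ x, γ (pr (vm x)) = pr (vm ((d * d)⁻¹ * x))) :
    ∃ t : PSL2 p, γ = MulAut.conj t := by
  let δ : SL p := ⟨!![d, 0; 0, d⁻¹], by simp [Matrix.det_fin_two, hd]⟩
  have e00 : (δ : Matrix (Fin 2) (Fin 2) (ZMod p)) 0 0 = d := rfl
  have e01 : (δ : Matrix (Fin 2) (Fin 2) (ZMod p)) 0 1 = 0 := rfl
  have e10 : (δ : Matrix (Fin 2) (Fin 2) (ZMod p)) 1 0 = 0 := rfl
  have e11 : (δ : Matrix (Fin 2) (Fin 2) (ZMod p)) 1 1 = d⁻¹ := rfl
  have hdu : ∀ x, δ * um x * δ⁻¹ = um (d * d * x) := by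
    intro x
    rw [mul_inv_eq_iff_eq_mul]
    apply sl_ext <;> simp [mul_entry, e00, e01, e10, e11]
    field_simp
  have hdv : ∀ x, δ * vm x * δ⁻¹ = vm ((d * d)⁻¹ * x) := by
    intro x
    rw [mul_inv_eq_iff_eq_mul]
    apply sl_ext <;> simp [mul_entry, e00, e01, e10, e11]
    field_simp
  refine ⟨pr δ, ?_⟩
  have h := hom_ext γ.toMonoidHom (MulAut.conj (pr δ)).toMonoidHom (by
    intro x
    change γ (pr (um x)) = pr δ * pr (um x) * (pr δ)⁻¹
    rw [hu, ← hdu x, map_mul, map_mul, map_inv]) (by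
    intro x
    change γ (pr (vm x)) = pr δ * pr (vm x) * (pr δ)⁻¹
    rw [hv, ← hdv x, map_mul, map_mul, map_inv])
  ext1 x
  exact DFunLike.congr_fun h x

/-- the outer automorphism group has order at most two -/
theorem outer (hp : p ≠ 2) (α β : MulAut (PSL2 p)) (ha : ¬ ∃ t, α = MulAut.conj t)
    (hb : ¬ ∃ t, β = MulAut.conj t) : ∃ t, α * β⁻¹ = MulAut.conj t := by
  obtain ⟨t, s, hs, u1, v1⟩ := param hp α
  obtain ⟨r, s', hs', u2, v2⟩ := param hp β
  have n1 : ¬ IsSquare s := by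
    rintro ⟨d, rfl⟩
    obtain ⟨q, hq⟩ := inner_of_sq (MulAut.conj t * α) d (left_ne_zero_of_mul hs) u1 v1
    apply ha
    refine ⟨t⁻¹ * q, ?_⟩
    rw [map_mul, ← hq, map_inv, inv_mul_cancel_left]
  have n2 : ¬ IsSquare s' := by
    rintro ⟨d, rfl⟩
    obtain ⟨q, hq⟩ := inner_of_sq (MulAut.conj r * β) d (left_ne_zero_of_mul hs') u2 v2
    apply hb
    refine ⟨r⁻¹ * q, ?_⟩
    rw [map_mul, ← hq, map_inv, inv_mul_cancel_left]
  have n3 : IsSquare (s * s'⁻¹) := by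
    have hn : s * s'⁻¹ ≠ 0 := mul_ne_zero hs (inv_ne_zero hs')
    rw [← quadraticChar_one_iff_isSquare hn, map_mul,
      quadraticChar_neg_one_iff_not_isSquare.2 n1]
    have h1 : ¬ IsSquare (s'⁻¹) := by
      intro h
      exact n2 (isSquare_inv.1 h)
    rw [quadraticChar_neg_one_iff_not_isSquare.2 h1]
    norm_num
  obtain ⟨d, hd⟩ := n3
  have hd0 : d ≠ 0 := by
    rintro rfl
    rw [mul_zero] at hd
    exact mul_ne_zero hs (inv_ne_zero hs') hd
  obtain ⟨q, hq⟩ := inner_of_sq ((MulAut.conj t * α) * (MulAut.conj r * β)⁻¹) d hd0 (by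
      intro x
      have h1 : (MulAut.conj r * β)⁻¹ (pr (um x)) = pr (um (s'⁻¹ * x)) := by
        rw [MulAut.inv_apply, MulEquiv.symm_apply_eq, u2, mul_inv_cancel_left₀ hs']
      rw [MulAut.mul_apply, h1, u1, ← hd, mul_assoc]) (by
      intro x
      have h1 : (MulAut.conj r * β)⁻¹ (pr (vm x)) = pr (vm (s' * x)) := by
        rw [MulAut.inv_apply, MulEquiv.symm_apply_eq, v2, inv_mul_cancel_left₀ hs']
      rw [MulAut.mul_apply, h1, v1, ← hd, mul_inv, inv_inv, mul_assoc])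
  refine ⟨t⁻¹ * q * r, ?_⟩
  rw [map_mul, map_mul, ← hq, map_inv]
  group

/-- AUTP -/
theorem p_autp : AUTP.{u} := by
  intro _ B _ _ T _ p hpp hp5 ⟨e⟩ hcent
  have : Fact p.Prime := ⟨hpp⟩
  have hp : p ≠ 2 := by omega
  let Ψ : B →* MulAut (PSL2 p) :=
    (MulAut.congr e).toMonoidHom.comp (MulAut.conjNormal (H := T))
  have hinj : Function.Injective Ψ := by
    rw [injective_iff_map_eq_one]
    intro b hb
    have h1 : (MulAut.conjNormal (H := T)) b = 1 := by
      apply (MulAut.congr e).injective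
      rw [map_one]
      exact hb
    have h2 : b ∈ Subgroup.centralizer (T : Set B) := by
      rw [Subgroup.mem_centralizer_iff]
      intro h hh
      have h3 := congrArg (fun f : MulAut T => ((f ⟨h, hh⟩ : T) : B)) h1
      simp only [MulAut.conjNormal_apply, MulAut.one_apply] at h3
      rw [mul_inv_eq_iff_eq_mul] at h3
      exact h3.symm
    rw [hcent] at h2
    exact Subgroup.mem_bot.1 h2
  have hT : ∀ t : T, Ψ t = MulAut.conj (e t) := by
    intro t
    ext1 x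
    change e (MulAut.conjNormal (t : B) (e.symm x)) = e t * x * (e t)⁻¹
    have h1 : MulAut.conjNormal (t : B) (e.symm x) = t * e.symm x * t⁻¹ := by
      apply Subtype.ext
      rw [MulAut.conjNormal_apply]
      rfl
    rw [h1, map_mul, map_mul, map_inv, MulEquiv.apply_symm_apply]
  have hmem : ∀ b : B, (∃ t, Ψ b = MulAut.conj t) → b ∈ T := by
    rintro b ⟨t, ht⟩
    have h1 : Ψ b = Ψ (e.symm t : T) := by
      rw [hT, MulEquiv.apply_symm_apply, ht]
    rw [hinj h1]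
    exact (e.symm t).2
  have key : ∀ a b : B, a ∉ T → b ∉ T → a * b⁻¹ ∈ T := by
    intro a b ha hb
    apply hmem
    rw [map_mul, map_inv]
    exact outer hp (Ψ a) (Ψ b) (fun h => ha (hmem a h)) (fun h => hb (hmem b h))
  by_cases hTT : T = ⊤
  · rw [hTT, Subgroup.index_top]; norm_num
  · obtain ⟨a, ha⟩ : ∃ a, a ∉ T := by
      by_contra hcon
      push Not at hcon
      exact hTT (by rw [eq_top_iff]; intro x _; exact hcon x)
    have h2 : T.index = 2 := by
      rw [Subgroup.index_eq_two_iff]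
      refine ⟨a, fun b => ?_⟩
      by_cases hb : b ∈ T
      · right
        refine ⟨hb, fun h => ha ?_⟩
        exact (Subgroup.mul_mem_cancel_left T hb).1 h
      · left
        refine ⟨?_, hb⟩
        have h3 := key b a⁻¹ hb (fun h => ha (by simpa using h))
        rwa [inv_inv] at h3
    exact h2.le

end Pool.Agent.Helper98.RS
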